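import Pool.Agent.W525.CB.Stm2

open AlgebraicGeometry CategoryTheory Order

set_option autoImplicit false

namespace Pool.Agent.W103.CB.ACANX

open Pool.Agent.H187R3 Pool.Agent.W525.CB

section ord

variable {X : Scheme.{0}} [IsIntegral X] [IsLocallyNoetherian X]

lemma ord_one' (y : X) : Scheme.ord (1 : X.functionField) y = 0 := by
  have h := Scheme.ord_mul (X := X) (x := y) (f := 1) (g := 1) one_ne_zero one_ne_zero
  rw [one_mul] at h
  omega

lemma ord_inv' {f : X.functionField} (hf : f ≠ 0) (y : X) :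
    Scheme.ord f⁻¹ y = - Scheme.ord f y := by
  have h := Scheme.ord_mul (X := X) (x := y) (f := f) (g := f⁻¹) hf (inv_ne_zero hf)
  rw [mul_inv_cancel₀ hf, ord_one'] at h
  omega

lemma ord_neg' {f : X.functionField} (hf : f ≠ 0) (y : X) :
    Scheme.ord (-f) y = Scheme.ord f y := by
  have h1 : Scheme.ord (-1 : X.functionField) y = 0 := by
    have h := Scheme.ord_mul (X := X) (x := y) (f := -1) (g := -1)
      (neg_ne_zero.mpr one_ne_zero) (neg_ne_zero.mpr one_ne_zero)
    rw [neg_mul_neg, one_mul, ord_one'] at h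
    omega
  have h := Scheme.ord_mul (X := X) (x := y) (f := -1) (g := f)
    (neg_ne_zero.mpr one_ne_zero) hf
  rw [neg_one_mul, h1, zero_add] at h
  exact h

lemma ord_pow' {f : X.functionField} (hf : f ≠ 0) (y : X) (m : ℕ) :
    Scheme.ord (f ^ m) y = m * Scheme.ord f y := by
  induction m with
  | zero => rw [pow_zero, ord_one']; simp
  | succ m ih =>
    rw [pow_succ, Scheme.ord_mul (pow_ne_zero m hf) hf, ih]
    push_cast
    ring

end ord

section coord

variable {n : ℕ} {L : Type} [Field L] {x y : Fin (n + 3) → L}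

lemma one_ne_two' : (1 : Fin (n + 3)) ≠ 2 := by
  intro h
  have h' := congrArg Fin.val h
  simp at h'
  rw [Nat.mod_eq_of_lt (by omega)] at h'
  omega

lemma zero_ne_one'' : (0 : Fin (n + 3)) ≠ 1 := by
  intro h
  have h' := congrArg Fin.val h
  simp at h'

lemma ww_ne (h : Dat x y) (σ : Equiv.Perm (Fin (n + 3))) : ww x y σ 2 ≠ 0 := by
  have h0 := h.nx (σ 0)
  have h1 : uu x y (σ 0) (σ 1) ≠ 0 := h.nu _ _ (σ.injective.ne zero_ne_one'')
  have h2 : uu x y (σ 1) (σ 2) ≠ 0 := h.nu _ _ (σ.injective.ne one_ne_two')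
  have h3 : ww x y σ 2 = - (uu x y (σ 1) (σ 2) / uu x y (σ 0) (σ 1)) := by
    unfold ww ss tt
    have h1' := h1
    unfold uu at h1' ⊢
    field_simp
    ring
  rw [h3]
  exact neg_ne_zero.mpr (div_ne_zero h2 h1)

end coord

theorem main : S_ACANX := by
  intro parts n k E _ _ _ _ _ _ x y hn hE hNor hLif M
  obtain ⟨X, Y, hD, hX0, hκX, hκY, hκs, hκt, hκw, hlift⟩ := hLif M
  letI alg : Algebra k M.X.functionField := (kmap M.f).toAlgebra
  obtain ⟨htr, hadj, hch⟩ := hlift
  haveI : CharP M.X.functionField (n + 2) :=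
    charP_of_injective_ringHom (kmap M.f).injective (n + 2)
  have hnorX := hNor.1 M
  have hκinj : Function.Injective M.κ := M.κ.injective
  have hbas := fun σ => parts.bas n k M.X.functionField X Y hn hD htr σ (hadj σ)
  have hcov := (parts.cov n k E x y hn hE).1 M
  have hww : ∀ (P : M.X) (σ : Equiv.Perm (Fin (n + 3))), (ww x y σ 2)⁻¹ ∈ locIn M.κ P →
      (ww X Y σ 2)⁻¹ ∈ (algebraMap (M.X.presheaf.stalk P) M.X.functionField).range := by
    intro P σ h
    obtain ⟨r, hr⟩ := h
    refine ⟨r, hκinj ?_⟩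
    rw [map_inv₀, hκw]
    exact hr
  have key : ∀ P : M.X, ∃ (σ : Equiv.Perm (Fin (n + 3))) (a : IX n), a.1 = (σ 0, σ 0, σ 1) ∧
      P ∈ M.U a ∧ (ww X Y σ 2)⁻¹ ∈ (algebraMap (M.X.presheaf.stalk P) M.X.functionField).range ∧
      ∃ c : Module.Basis (Fin (n + 1) ⊕ Fin n) M.X.functionField (Ω[M.X.functionField⁄ℤ]),
        (∀ i, c i = cfam X Y σ i) ∧
        (Submodule.span (M.X.presheaf.stalk P) (Set.range c) :
          Submodule (M.X.presheaf.stalk P) _) =
          diffLattice (M.X.presheaf.stalk P) M.X.functionField := by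
    intro P
    obtain ⟨σ, a, ha, hP, hw⟩ := hcov P
    obtain ⟨c, hc⟩ := hbas σ
    refine ⟨σ, a, ha, hP, hww P σ hw, c, hc, ?_⟩
    have hl := parts.lat n k M.X.functionField X Y hn hD σ (M.X.presheaf.stalk P)
      (hch σ a ha P hP).1 (hch σ a ha P hP).2 (hww P σ hw)
    rw [← hl]
    congr 2
    exact funext hc
  choose σ a ha hPU hwinv c hc hspan using key
  obtain ⟨b, hb⟩ := hbas 1
  set t : (Fin (n + 1) ⊕ Fin n) → M.X.functionField :=
    Sum.elim (fun i => tt X Y 1 i.succ.succ) (fun i => ss X 1 i.succ.succ.succ) with ht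
  have hbt : ∀ i, b i = KaehlerDifferential.D ℤ M.X.functionField (t i) := by
    intro i
    rw [hb]
    rcases i with i | i <;> rfl
  have hbt' : (fun i => KaehlerDifferential.D ℤ M.X.functionField (t i)) = ⇑b :=
    funext fun i => (hbt i).symm
  refine ⟨?_, ?_⟩
  · exact parts.klt k (n + 2) M.X M.f hnorX (Fin (n + 1) ⊕ Fin n) t b hbt
      (fun P => ⟨c P, hspan P⟩)
  · have hdet : ∀ P, (c P).det b ≠ 0 := fun P => ((c P).isUnit_det b).ne_zero
    refine ⟨fun P => Scheme.ord ((c P).det b) P, ww X Y 1 2 ^ (n + 2),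
      pow_ne_zero _ (ww_ne hD 1), ?_, ?_⟩
    · refine ⟨Fin (n + 1) ⊕ Fin n, inferInstance, inferInstance, t, fun P _ => ?_⟩
      refine ⟨c P, hspan P, ?_, ?_⟩
      · rw [hbt']; exact hdet P
      · rw [hbt']
    · intro P hP σ' a' ha' hPa' H hH
      have hXne : ∀ i, X i ≠ 0 := hD.nx
      have hHeq : H = (X (σ' 0))⁻¹ := by
        apply hκinj
        rw [hH, map_inv₀, hκX, inv_div]
      have hordrange := parts.ord M.X hnorX P hP
      -- the order of `ww σ 2` is zero
      have hw0 : Scheme.ord (ww X Y (σ P) 2) P = 0 := by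
        have hne := ww_ne hD (σ P)
        have h1 : 0 ≤ Scheme.ord (ww X Y (σ P) 2) P := by
          rw [hordrange _ hne]
          apply (hch (σ P) (a P) (ha P) P (hPU P)).1
          have hs : ∀ i, ss X (σ P) i ∈
              Algebra.adjoin k (Set.range (ss X (σ P)) ∪ Set.range (tt X Y (σ P))) :=
            fun i => Algebra.subset_adjoin (Or.inl ⟨i, rfl⟩)
          have htt : ∀ i, tt X Y (σ P) i ∈
              Algebra.adjoin k (Set.range (ss X (σ P)) ∪ Set.range (tt X Y (σ P))) :=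
            fun i => Algebra.subset_adjoin (Or.inr ⟨i, rfl⟩)
          exact Subalgebra.sub_mem _ (Subalgebra.pow_mem _ (hs 2) 2)
            (Subalgebra.mul_mem _ (Subalgebra.pow_mem _ (hs 1) 2) (htt 2))
        have h2 : 0 ≤ Scheme.ord (ww X Y (σ P) 2)⁻¹ P := by
          rw [hordrange _ (inv_ne_zero hne)]
          exact hwinv P
        rw [ord_inv' hne] at h2
        omega
      -- comparison of the charts
      have hcmp : ∀ (τ : Equiv.Perm (Fin (n + 3))) (d : IX n), d.1 = (τ 0, τ 0, τ 1) →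
          P ∈ M.U d → ∀ j, Scheme.ord (X (τ 0)) P ≤ Scheme.ord (X j) P := by
        intro τ d hd hPd j
        have hne : X j / X (τ 0) ≠ 0 := div_ne_zero (hXne _) (hXne _)
        have h1 : 0 ≤ Scheme.ord (X j / X (τ 0)) P := by
          rw [hordrange _ hne]
          apply (hch τ d hd P hPd).1
          refine Algebra.subset_adjoin (Or.inl ⟨τ.symm j, ?_⟩)
          unfold ss
          rw [Equiv.apply_symm_apply]
        rw [div_eq_mul_inv, Scheme.ord_mul (hXne _) (inv_ne_zero (hXne _)),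
          ord_inv' (hXne _)] at h1
        omega
      have heq : Scheme.ord (X (σ' 0)) P = Scheme.ord (X (σ P 0)) P :=
        le_antisymm (hcmp σ' a' ha' hPa' _) (hcmp (σ P) (a P) (ha P) (hPU P) _)
      -- volume forms
      have hvol := parts.vol n M.X.functionField X Y hn hD (σ P) (c P).det
      have hc1 : (c P).det (cfam X Y (σ P)) = 1 := by
        rw [← (funext (hc P) : ⇑(c P) = cfam X Y (σ P))]
        exact (c P).det_self
      have hb1 : cfam X Y 1 = ⇑b := (funext hb).symm
      rw [hc1, hb1, hX0, one_pow, mul_one, one_mul] at hvol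
      have hgne : ww X Y 1 2 ^ (n + 2) ≠ 0 := pow_ne_zero _ (ww_ne hD 1)
      have hwpne : ww X Y (σ P) 2 ^ (n + 2) ≠ 0 := pow_ne_zero _ (ww_ne hD (σ P))
      have hxpne : X (σ P 0) ^ (n + 1) ≠ 0 := pow_ne_zero _ (hXne _)
      have hord : Scheme.ord (ww X Y 1 2 ^ (n + 2)) P =
          Scheme.ord ((c P).det b * (ww X Y (σ P) 2 ^ (n + 2) * X (σ P 0) ^ (n + 1))) P := by
        rcases hvol with h | h
        · rw [h]
        · rw [h, ord_neg' (mul_ne_zero (hdet P) (mul_ne_zero hwpne hxpne))]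
      rw [Scheme.ord_mul (hdet P) (mul_ne_zero hwpne hxpne), Scheme.ord_mul hwpne hxpne,
        ord_pow' (ww_ne hD (σ P)), hw0, ord_pow' (hXne _), mul_zero, zero_add] at hord
      show Scheme.ord ((c P).det b) P = _
      rw [hHeq, ord_inv' (hXne _), heq, hord]
      push_cast
      ring

end Pool.Agent.W103.CB.ACANX
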